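import Pool.Agent.Helper72.QT.Main

/-!
# Rational surfaces in smooth quartic hypersurfaces of dimension at least four

`k` is an algebraically closed field of characteristic different from `2` and `3`, `X` in `ℙ^n` a
smooth quartic hypersurface, `n ≥ 5`: a Fano variety of dimension `n - 1 ≥ 4`. Then `X` contains a
rational surface.

A rational map from the plane to `ℙ^n` is given by homogeneous coordinates `y_0, ..., y_n` in the
function field `K = k(u_0, u_1)` of the plane, not all zero; its image is contained in `X` iff
`F(y) = 0`, and the function field of the closure of its image is the field generated over `k` by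
the quotients `y_j / y_i` (`y_i ≠ 0`). So the map is
birational onto its image iff the quotients generate `K`.

Proof: residual points of the lines which have contact of order three with `X`. Project QT
(`Pool/Agent/Helper72/QT`): helpers 4, 5, 11, 12, 15, 17, 18, 27, 33, 41, 42, 46, 54, 62, 64, 72,
82, 83, 90, 93, 98, 99; referees helpers 66, 91.
-/

set_option autoImplicit false

namespace Pool.Agent.Results.MP_1a304d_ag.QuarticRational

open MvPolynomial

variable {k : Type*} [Field k] {n : ℕ}

/-- The hypersurface `F = 0` in `ℙ^n` is smooth. -/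
def Smooth (F : MvPolynomial (Fin (n + 1)) k) : Prop :=
  ∀ x : Fin (n + 1) → k, x ≠ 0 → eval x F = 0 → ∃ i, eval x (pderiv i F) ≠ 0

/-- The function field `k(u_0, u_1)` of the projective plane. -/
abbrev K (k : Type*) [Field k] : Type _ := FractionRing (MvPolynomial (Fin 2) k)

/-- The hypersurface `F = 0` contains a rational surface: some rational map from the plane to the
hypersurface is birational onto (the closure of) its image. -/
def ContainsRationalSurface (F : MvPolynomial (Fin (n + 1)) k) : Prop :=
  ∃ y : Fin (n + 1) → K k, aeval y F = 0 ∧ ∃ i, y i ≠ 0 ∧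
    IntermediateField.adjoin k (Set.range fun j => y j / y i) = ⊤

theorem result [IsAlgClosed k] (h2 : (2 : k) ≠ 0) (h3 : (3 : k) ≠ 0) (hn : 5 ≤ n)
    (F : MvPolynomial (Fin (n + 1)) k) (hF : F.IsHomogeneous 4) (hS : Smooth F) :
    ContainsRationalSurface F := by
  have hT := Pool.Agent.Helper72.QT.symT_polT F
  have hSmo := Pool.Agent.Helper72.QT.smo_polT h2 h3 F hF hS
  obtain ⟨_, h4⟩ := Pool.Agent.Helper72.QT.main_tensor h2 hT hSmo (by omega)
  obtain ⟨e⟩ := Pool.Agent.Helper72.QT.exists_equiv (k := k)
  obtain ⟨y, hy, hrest⟩ := Pool.Agent.Helper72.QT.transfer_rat e (h4 (by omega))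
  refine ⟨y, ?_, hrest⟩
  rw [Pool.Agent.Helper72.QT.aeval_polT h2 h3 F hF, hy]

end Pool.Agent.Results.MP_1a304d_ag.QuarticRational
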